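import Pool.Agent.X184.HkRMain

/-!
# MP_dc9318_an: Hilbert-Schmidt Hankel operators with conjugate holomorphic symbols

On a bounded Reinhardt domain `Ω ⊆ ℂⁿ`, `n ≥ 2`, the only Hilbert-Schmidt Hankel operator
`H_{f̄}` with `f` holomorphic is `0`.  Definitions (`IsReinhardt`, `A2`, `L2`, `Op`, `IsHankel`,
`IsHilbertSchmidt`) are in `Pool.Agent.X184.HkRDefs`.
-/

set_option autoImplicit false

namespace Pool.Agent.Results.MP_dc9318_an.HankelReinhardt

open Pool.Agent.X184.HkR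

/-- Let `n ≥ 2`, let `Ω ⊆ ℂⁿ` be a bounded Reinhardt domain (open, connected), let `f` be
holomorphic on `Ω`, and let `T : A²(Ω) → L²(Ω)` be the bounded extension of the (densely defined)
Hankel operator `H_{f̄}`.  If `T` is Hilbert-Schmidt, then `T = 0`. -/
theorem result {n : ℕ} (hn : 2 ≤ n) {Ω : Set (Fin n → ℂ)} (hΩ : IsOpen Ω) (hc : IsConnected Ω)
    (hb : Bornology.IsBounded Ω) (hR : IsReinhardt Ω)
    {f : (Fin n → ℂ) → ℂ} (hf : DifferentiableOn ℂ f Ω) {T : Op Ω} (hT : IsHankel f T)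
    (hHS : IsHilbertSchmidt T) : T = 0 :=
  hankelR hn hΩ hc hb hR hf hT hHS

end Pool.Agent.Results.MP_dc9318_an.HankelReinhardt
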